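import Pool.Agent.W46.HM.Stm
import Pool.Agent.W597.HD.CFG

/-!
# HM-CFGT: existence of the exact configuration
-/

set_option autoImplicit false

open Finset
open scoped Classical

namespace Pool.Agent.W135.HM
open Pool.Agent.W904.AK Pool.Agent.W46.HD Pool.Agent.W46.HM Pool.Agent.W597.HD

variable {Ω : Type} [Fintype Ω] {d n : ℕ} {p : Ω × Fin n → ℝ} {A D : Ω → Fin d → ℝ}

theorem psumT
    (φ : ((((Ω × Fin n) × (Ω × Fin n)) × (Ω × Fin n)) ×
      (((Ω × Fin n) × (Ω × Fin n)) × (Ω × Fin n))) × ((Ω × Fin n) × (Ω × Fin n)) →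
      (Ω × Fin n) × (Ω × Fin n)) (hφ : im (qq A D p) φ = r2 p)
    (f g : ((((Ω × Fin n) × (Ω × Fin n)) × (Ω × Fin n)) ×
      (((Ω × Fin n) × (Ω × Fin n)) × (Ω × Fin n))) × ((Ω × Fin n) × (Ω × Fin n)) → Fin n)
    (h : ∀ z, qq A D p z ≠ 0 → psi n (f z) (g z) = psi n (φ z).1.2 (φ z).2.2) :
    ∑ z, qq A D p z * psi n (f z) (g z) ≤ sep p := by
  have h2 := sum_im_mul (qq A D p) φ (fun y => psi n y.1.2 y.2.2)
  rw [hφ] at h2
  have h3 : ∑ z, qq A D p z * psi n (f z) (g z) =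
      ∑ z, qq A D p z * psi n (φ z).1.2 (φ z).2.2 := by
    refine Finset.sum_congr rfl fun z _ => ?_
    by_cases hz : qq A D p z = 0
    · rw [hz]; ring
    · rw [h z hz]
  rw [h3, ← h2]
  exact le_rfl

theorem H_r3_13 (hp : IsLaw p) : H (r3 p) (fun z => (z.1.1, z.2)) = H (r2 p) (fun z => z) :=
  H_map (r3_13 hp) (fun z => z)

theorem CFGT : S_CFGT := by
  intro Ω _ d n A D p hn hp
  have hlog := Hlog hp
  have hpid : H p id = aa p + (Real.log n - lam p) := by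
    unfold aa lam
    ring
  have hce : H p (ce A D) = hh A D p + H p Prod.snd := by
    unfold hh
    have : H p (ce A D) = H p (fun z => (z.2, cell A D z.2 z.1)) := rfl
    rw [this]
    ring
  have haa : H p Prod.fst = aa p := rfl
  have hr2 := H_r2 hp
  have hr3 := H_r3 hp
  rw [haa] at hr2 hr3
  have hq : IsLaw (qq A D p) := qq_law hp
  -- the pair of lines `l1, l3`
  have p1 := H_pair (A := A) (D := D) hp (u := fun a => a.1.1) (v := fun y => y.1)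
    (Det.comp (qA A D p) (fun a => a.1.1) fun b => ce A D b.1)
    (Det.comp (r2 p) (fun y => y.1) fun b => ce A D b)
  have p2 : H (qA A D p) (fun a => a.1.1) = H (r2 p) (fun z => z) := by
    rw [← H_r3_fst hp]
    exact H_map (qA_fst hp) (fun a => a.1)
  rw [H_r2_fst hp, p2] at p1
  -- the same with all heights
  have p3 := H_pair (A := A) (D := D) hp (u := fun a => a.1) (v := fun y => y)
    (Det.comp (qA A D p) (fun a => a.1) fun b => ce A D b.1.1)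
    (Det.comp (r2 p) (fun y => y) fun b => ce A D b.1)
  have p4 : H (qA A D p) (fun a => a.1) = H (r3 p) (fun z => z) :=
    H_map (qA_fst hp) (fun a => a)
  rw [p4] at p3
  -- three lines
  have p5 := H_pair (A := A) (D := D) hp (u := fun a => (a.1.1, (a.2.1.1, a.2.2)))
    (v := fun y => y.1)
    (Det.comp (qA A D p) (fun a => (a.1.1, (a.2.1.1, a.2.2))) fun b => ce A D b.1.1)
    (Det.comp (r2 p) (fun y => y.1) fun b => ce A D b)
  have p6 := H_pairA (A := A) (D := D) hp (u := fun a => a.1) (w := fun y => (y.1.1, y.2))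
    (Det.comp (r3 p) (fun a => a.1) fun b => ce A D b.2)
    (Det.comp (r3 p) (fun y => (y.1.1, y.2)) fun b => ce A D b.1)
  rw [H_r3_fst hp, H_r3_13 hp] at p6
  rw [H_r2_fst hp, p6] at p5
  -- three lines with all heights
  have p7 := H_pair (A := A) (D := D) hp (u := fun a => (a.1, a.2)) (v := fun y => y)
    (Det.comp (qA A D p) (fun a => (a.1, a.2)) fun b => ce A D b.1.1.1)
    (Det.comp (r2 p) (fun y => y) fun b => ce A D b.1)
  have p8 := H_pairA (A := A) (D := D) hp (u := fun a => a) (w := fun y => y)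
    (Det.comp (r3 p) (fun a => a) fun b => ce A D b.1.2)
    (Det.comp (r3 p) (fun y => y) fun b => ce A D b.1.1)
  rw [p8] at p7
  refine ⟨((((Ω × Fin n) × (Ω × Fin n)) × (Ω × Fin n)) × (((Ω × Fin n) × (Ω × Fin n)) ×
    (Ω × Fin n))) × ((Ω × Fin n) × (Ω × Fin n)), inferInstance, qq A D p,
    fun z => z.1.1.1.1.1, fun z => z.1.2.1.1.1, fun z => z.2.1.1, fun z => z.1.1.1.1.2,
    fun z => z.1.1.1.2.2, fun z => z.1.1.2.2, fun z => z.2.2.2, fun z => z.1.2.1.2.2,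
    fun z => z.1.2.2.2, ?_⟩
  constructor
  · exact hq
  · intro z hz
    exact (qq_supp hz).2.2.2.2.2
  · intro z hz
    exact (qq_supp hz).2.2.2.1.2
  · exact H_line hq (m_t hp) (fun z _ => rfl) (fun z hz => (qq_supp hz).1.2)
  · exact H_line hq (m_t' hp) (fun z _ => rfl) (fun z hz => (qq_supp hz).2.2.1)
  · exact H_line hq (m_ta hp) (fun z _ => rfl) (fun z hz => (qq_supp hz).2.1.1)
  · exact H_line hq (m_v hp) (fun z _ => rfl) (fun z hz => (qq_supp hz).2.1.2)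
  · -- tl
    have e1 : H (qq A D p) (fun z => (z.1.1.1.1.1, z.1.1.2.2)) =
        H (qq A D p) (fun z => z.1.1.2) := by
      refine H_ae hq fun z hz => ?_
      exact Prod.ext (qq_supp hz).1.2.symm rfl
    have e2 : H (qq A D p) (fun z => z.1.1.2) = H p id := H_map (m_t hp) id
    have e3 : H (qq A D p) (fun z => z.1.1.1.1.1) = H p Prod.fst := H_map (m_s0 hp) Prod.fst
    rw [e1, e2, e3, haa, hpid]
    ring
  · -- f1
    have h3 : Det (qq A D p) (fun z => (z.1.1.1.1.1, z.2.1.1, z.1.1.1.1.2, z.1.1.1.2.2, z.1.1.2.2,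
        z.2.2.2)) (fun z => (z.1.1, z.2)) := by
      intro x y hx hy hxy
      obtain ⟨⟨x1, x2⟩, ⟨x3, x4⟩, x5, ⟨x6, -⟩, ⟨x7, -⟩⟩ := qq_supp hx
      obtain ⟨⟨y1, y2⟩, ⟨y3, y4⟩, y5, ⟨y6, -⟩, ⟨y7, -⟩⟩ := qq_supp hy
      simp only [Prod.mk.injEq] at hxy
      obtain ⟨e1, e2, e3, e4, e5, e6⟩ := hxy
      refine Prod.ext (Prod.ext (Prod.ext (Prod.ext e1 e3) (Prod.ext ?_ e4))
        (Prod.ext ?_ e5)) (Prod.ext (Prod.ext e2 ?_) (Prod.ext ?_ e6))
      · exact x1.trans (e1.trans y1.symm)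
      · exact x2.trans (e1.trans y2.symm)
      · exact x7.trans (e3.trans y7.symm)
      · exact x5.trans (e2.trans y5.symm)
    have h4 := H_mono hq h3
    have h5 := H_mono hq (Det.comp (qq A D p) (fun z => (z.1.1.1, z.2.1))
      fun b => (b.1.1.1, b.2.1, b.1.1.2, b.1.2.2))
    rw [p3] at h4
    rw [p1] at h5
    linarith
  · -- f2
    have h3 : Det (qq A D p) (fun z => (z.1.1.1.1.1, z.2.1.1, z.1.1.1.1.2, z.1.1.1.2.2))
        (fun z => (z.1.1.1, z.2.1)) := by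
      intro x y hx hy hxy
      obtain ⟨⟨x1, x2⟩, ⟨x3, x4⟩, x5, ⟨x6, -⟩, ⟨x7, -⟩⟩ := qq_supp hx
      obtain ⟨⟨y1, y2⟩, ⟨y3, y4⟩, y5, ⟨y6, -⟩, ⟨y7, -⟩⟩ := qq_supp hy
      simp only [Prod.mk.injEq] at hxy
      obtain ⟨e1, e2, e3, e4⟩ := hxy
      refine Prod.ext (Prod.ext (Prod.ext e1 e3) (Prod.ext ?_ e4)) (Prod.ext e2 ?_)
      · exact x1.trans (e1.trans y1.symm)
      · exact x7.trans (e3.trans y7.symm)
    have h4 := H_mono hq h3
    rw [p1] at h4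
    linarith
  · -- f3
    have h3 : Det (qq A D p) (fun z => (z.1.1.1.1.1, z.1.2.1.1.1, z.2.1.1, z.1.1.1.1.2, z.1.1.1.2.2,
        z.1.2.2.2, z.1.1.2.2, z.1.2.1.2.2, z.2.2.2)) (fun z => ((z.1.1, z.1.2), z.2)) := by
      intro x y hx hy hxy
      obtain ⟨⟨x1, x2⟩, ⟨x3, x4⟩, x5, ⟨x6, -⟩, ⟨x7, -⟩⟩ := qq_supp hx
      obtain ⟨⟨y1, y2⟩, ⟨y3, y4⟩, y5, ⟨y6, -⟩, ⟨y7, -⟩⟩ := qq_supp hy
      simp only [Prod.mk.injEq] at hxy
      obtain ⟨e1, e2, e3, e4, e5, e6, e7, e8, e9⟩ := hxy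
      refine Prod.ext (Prod.ext (Prod.ext (Prod.ext (Prod.ext e1 e4) (Prod.ext ?_ e5))
        (Prod.ext ?_ e7)) (Prod.ext (Prod.ext (Prod.ext e2 ?_) (Prod.ext ?_ e8))
        (Prod.ext ?_ e6))) (Prod.ext (Prod.ext e3 ?_) (Prod.ext ?_ e9))
      · exact x1.trans (e1.trans y1.symm)
      · exact x2.trans (e1.trans y2.symm)
      · exact x6.trans (e5.trans y6.symm)
      · exact x3.trans (e2.trans y3.symm)
      · exact x4.trans (e2.trans y4.symm)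
      · exact x7.trans (e4.trans y7.symm)
      · exact x5.trans (e3.trans y5.symm)
    have h4 := H_mono hq h3
    have h5 := H_mono hq (Det.comp (qq A D p) (fun z => ((z.1.1.1, (z.1.2.1.1, z.1.2.2)), z.2.1))
      fun b => (b.1.1.1.1, b.1.2.1.1, b.2.1, b.1.1.1.2, b.1.1.2.2, b.1.2.2.2))
    rw [p7] at h4
    rw [p5] at h5
    linarith
  · -- f4
    have h3 : Det (qq A D p) (fun z => (z.1.1.1.1.1, z.1.2.1.1.1, z.2.1.1, z.1.1.1.1.2,
        z.1.1.1.2.2, z.1.2.2.2)) (fun z => ((z.1.1.1, (z.1.2.1.1, z.1.2.2)), z.2.1)) := by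
      intro x y hx hy hxy
      obtain ⟨⟨x1, x2⟩, ⟨x3, x4⟩, x5, ⟨x6, -⟩, ⟨x7, -⟩⟩ := qq_supp hx
      obtain ⟨⟨y1, y2⟩, ⟨y3, y4⟩, y5, ⟨y6, -⟩, ⟨y7, -⟩⟩ := qq_supp hy
      simp only [Prod.mk.injEq] at hxy
      obtain ⟨e1, e2, e3, e4, e5, e6⟩ := hxy
      refine Prod.ext (Prod.ext (Prod.ext (Prod.ext e1 e4) (Prod.ext ?_ e5))
        (Prod.ext (Prod.ext e2 ?_) (Prod.ext ?_ e6))) (Prod.ext e3 ?_)
      · exact x1.trans (e1.trans y1.symm)
      · exact x6.trans (e5.trans y6.symm)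
      · exact x4.trans (e2.trans y4.symm)
      · exact x7.trans (e4.trans y7.symm)
    have h4 := H_mono hq h3
    rw [p5] at h4
    linarith
  · -- mar
    have h1 := H_pair (A := A) (D := D) hp (u := fun a => (a.1.1.1.2, a.1.1.2.2, a.2.2.2,
      cell A D a.1.1.1.2 a.1.1.1.1, cell A D a.2.2.2 a.2.1.1.1)) (v := fun y => y.1)
      (Det.comp (qA A D p) (fun a => (a.1.1.1.2, a.1.1.2.2, a.2.2.2,
      cell A D a.1.1.1.2 a.1.1.1.1, cell A D a.2.2.2 a.2.1.1.1)) fun b => (b.1, b.2.2.2.1))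
      (Det.comp (r2 p) (fun y => y.1) fun b => ce A D b)
    have h2 : H (qq A D p) (fun z => (z.1.1.1.1.2, z.1.1.1.2.2, z.1.2.2.2,
      cell A D z.1.1.1.1.2 z.1.1.1.1.1, cell A D z.1.2.2.2 z.1.2.1.1.1)) =
      H (qA A D p) (fun a => (a.1.1.1.2, a.1.1.2.2, a.2.2.2,
      cell A D a.1.1.1.2 a.1.1.1.1, cell A D a.2.2.2 a.2.1.1.1)) :=
      H_map (qq_fst hp) (fun a => (a.1.1.1.2, a.1.1.2.2, a.2.2.2,
      cell A D a.1.1.1.2 a.1.1.1.1, cell A D a.2.2.2 a.2.1.1.1))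
    rw [H_r2_fst hp] at h1
    have h3 : Det (qq A D p) (fun z => (z.1.1.1.1.2, z.1.1.1.2.2, z.1.2.2.2,
        cell A D z.1.2.2.2 z.1.2.1.1.1, z.2.1.1))
        (fun z => ((z.1.1.1.1.2, z.1.1.1.2.2, z.1.2.2.2,
          cell A D z.1.1.1.1.2 z.1.1.1.1.1, cell A D z.1.2.2.2 z.1.2.1.1.1), z.2.1)) := by
      intro x y hx hy hxy
      obtain ⟨⟨x1, x2⟩, ⟨x3, x4⟩, x5, ⟨x6, -⟩, ⟨x7, x8⟩⟩ := qq_supp hx
      obtain ⟨⟨y1, y2⟩, ⟨y3, y4⟩, y5, ⟨y6, -⟩, ⟨y7, y8⟩⟩ := qq_supp hy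
      simp only [Prod.mk.injEq] at hxy
      obtain ⟨e1, e2, e3, e4, e5⟩ := hxy
      refine Prod.ext (Prod.ext e1 (Prod.ext e2 (Prod.ext e3 (Prod.ext ?_ e4))))
        (Prod.ext e5 ?_)
      · show cell A D x.1.1.1.1.2 x.1.1.1.1.1 = cell A D y.1.1.1.1.2 y.1.1.1.1.1
        rw [x8, y8, e1, e5]
      · exact x7.trans (e1.trans y7.symm)
    have h4 := H_mono hq h3
    refine le_trans ?_ h4
    rw [h1, h2]
    linarith
  · -- pp
    set w := glue (r2 p) (r2 p) (fun z => ce A D z.1) (fun z => ce A D z.1) with hw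
    have hwl : IsLaw w := glue_law (r2_law hp) (r2_law hp) fun _ => rfl
    have hΦ : im (qq A D p) (fun z => ((z.1.1.1.2, z.1.1.1.1), (z.1.2.1.1, z.1.2.2))) = w := by
      rw [im_im (qq A D p) Prod.fst (fun a => ((a.1.1.2, a.1.1.1), (a.2.1.1, a.2.2))), qq_fst hp]
      have h := im_glue (r3 p) (r3 p) (fun x => (x.1.2, x.1.1)) (fun y => (y.1.1, y.2))
        (fun z : (Ω × Fin n) × (Ω × Fin n) => ce A D z.1)
        (fun z : (Ω × Fin n) × (Ω × Fin n) => ce A D z.1)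
      rw [r3_21 hp, r3_13 hp] at h
      exact h
    have hΨ : im (qq A D p) (fun z => ((z.1.1.1.1, z.1.1.2), z.2)) = w := by
      have h := im_glue (qA A D p) (r2 p) (fun a => (a.1.1.1, a.1.2)) (fun y => y)
        (fun z : (Ω × Fin n) × (Ω × Fin n) => ce A D z.1)
        (fun z : (Ω × Fin n) × (Ω × Fin n) => ce A D z.1)
      rw [im_im (qA A D p) Prod.fst (fun z => (z.1.1, z.2)), qA_fst hp, r3_13 hp, im_id] at h
      exact h
    have hs : ∀ y, w y ≠ 0 → y.1.1.1 = y.1.2.1 := by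
      intro y hy
      exact (glue_supp (glue_supp hy).2.1).1
    have l1 : H (qq A D p) (fun z => (z.1.1.1.1.2, z.1.1.1.2.2, z.1.2.2.2,
        cell A D z.1.1.1.1.2 z.1.1.1.1.1, cell A D z.1.2.2.2 z.1.2.1.1.1)) =
        H w (fun y => (y.1.2.2, y.1.1.2, y.2.2.2, cell A D y.1.2.2 y.1.2.1,
          cell A D y.2.2.2 y.2.1.1)) :=
      H_map hΦ (fun y => (y.1.2.2, y.1.1.2, y.2.2.2, cell A D y.1.2.2 y.1.2.1,
          cell A D y.2.2.2 y.2.1.1))
    have l2 : H (qq A D p) (fun z => (z.1.1.1.1.2, z.1.1.1.2.2, z.1.2.2.2)) =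
        H w (fun y => (y.1.2.2, y.1.1.2, y.2.2.2)) :=
      H_map hΦ (fun y => (y.1.2.2, y.1.1.2, y.2.2.2))
    have r1 : H (qq A D p) (fun z => (z.1.1.1.1.2, z.1.1.2.2, z.2.2.2,
        cell A D z.1.1.2.2 z.1.1.1.1.1, cell A D z.2.2.2 z.2.1.1)) =
        H w (fun y => (y.1.1.2, y.1.2.2, y.2.2.2, cell A D y.1.2.2 y.1.1.1,
          cell A D y.2.2.2 y.2.1.1)) :=
      H_map hΨ (fun y => (y.1.1.2, y.1.2.2, y.2.2.2, cell A D y.1.2.2 y.1.1.1,
          cell A D y.2.2.2 y.2.1.1))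
    have r2' : H (qq A D p) (fun z => (z.1.1.1.1.2, z.1.1.2.2, z.2.2.2)) =
        H w (fun y => (y.1.1.2, y.1.2.2, y.2.2.2)) :=
      H_map hΨ (fun y => (y.1.1.2, y.1.2.2, y.2.2.2))
    have c1 : H w (fun y => (y.1.2.2, y.1.1.2, y.2.2.2, cell A D y.1.2.2 y.1.2.1,
          cell A D y.2.2.2 y.2.1.1)) = H w (fun y => (y.1.1.2, y.1.2.2, y.2.2.2,
            cell A D y.1.2.2 y.1.1.1, cell A D y.2.2.2 y.2.1.1)) := by
      refine H_congr hwl ?_ ?_
      · intro x y hx hy hxy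
        simp only [Prod.mk.injEq] at hxy ⊢
        obtain ⟨e1, e2, e3, e4, e5⟩ := hxy
        refine ⟨e2, e1, e3, ?_, e5⟩
        rw [hs x hx, hs y hy, e4]
      · intro x y hx hy hxy
        simp only [Prod.mk.injEq] at hxy ⊢
        obtain ⟨e1, e2, e3, e4, e5⟩ := hxy
        refine ⟨e2, e1, e3, ?_, e5⟩
        rw [← hs x hx, ← hs y hy, e4]
    have c2 : H w (fun y => (y.1.2.2, y.1.1.2, y.2.2.2)) =
        H w (fun y => (y.1.1.2, y.1.2.2, y.2.2.2)) := by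
      refine H_congr hwl ?_ ?_
      · intro x y hx hy hxy
        simp only [Prod.mk.injEq] at hxy ⊢
        exact ⟨hxy.2.1, hxy.1, hxy.2.2⟩
      · intro x y hx hy hxy
        simp only [Prod.mk.injEq] at hxy ⊢
        exact ⟨hxy.2.1, hxy.1, hxy.2.2⟩
    rw [l1, l2, r1, r2', c1, c2]
  · -- c1
    exact psumT _ (n_s0s1 hp) _ _ fun z _ => rfl
  · exact psumT _ (n_s0t hp) _ _ fun z _ => psi_comm _ _ _
  · exact psumT _ (n_s1t hp) _ _ fun z _ => psi_comm _ _ _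
  · refine psumT _ (qq_snd hp) _ _ fun z hz => ?_
    rw [psi_comm, (qq_supp hz).2.2.2.2.1]
  · refine psumT _ (n_s1ta hp) _ _ fun z hz => ?_
    rw [psi_comm, (qq_supp hz).2.2.2.1.1]
  · exact psumT _ (n_tav hp) _ _ fun z _ => rfl
  · refine psumT _ (n_s1v hp) _ _ fun z hz => ?_
    rw [psi_comm]
    show _ = psi n z.1.2.1.1.2 z.1.2.2.2
    rw [(qq_supp hz).2.2.2.1.1]

end Pool.Agent.W135.HM
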