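import Pool.Agent.W707.HM.Stm

/-! Project HM, part UNI. -/

set_option autoImplicit false

open Set
open Pool.Agent.W707.HM

namespace Pool.Agent.W135.HM.Uni

theorem main (hQ : S_QLB) : S_UNI := by
  intro p f hp hcvx hHI m t t' hst hst' ht1 hpos
  by_contra hcon
  have htt : t < t' := not_le.1 hcon
  obtain ⟨htI, hsg⟩ := hst
  obtain ⟨htI', hsg'⟩ := hst'
  have e1 : f t' = f t + m * (t' - t) := by
    have h1 := hsg t' htI'
    have h2 := hsg' t htI
    linarith
  -- `f` is affine on `[t,t']`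
  have haff : ∀ u, t ≤ u → u ≤ t' → f u ≤ f t + m * (u - t) := by
    intro u hu1 hu2
    have hd : 0 < t' - t := by linarith
    have ha : 0 ≤ (t' - u) / (t' - t) := div_nonneg (by linarith) hd.le
    have hb : 0 ≤ (u - t) / (t' - t) := div_nonneg (by linarith) hd.le
    have hab : (t' - u) / (t' - t) + (u - t) / (t' - t) = 1 := by field_simp; ring
    have h1 := hcvx.2 htI htI' ha hb hab
    simp only [smul_eq_mul] at h1
    have h2 : (t' - u) / (t' - t) * t + (u - t) / (t' - t) * t' = u := by field_simp; ring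
    rw [h2, e1] at h1
    refine h1.trans (le_of_eq ?_)
    field_simp
    ring
  set eta : ℝ := (1 - t) / 2 with heta
  have heta0 : 0 < eta := by rw [heta]; linarith
  set D : ℝ := Dt p f t m with hD
  set Q : ℝ := Qt p f t m with hQ'
  have hD0 : 0 < D := by
    rw [hD]; unfold Dt
    exact div_pos hpos (by linarith)
  have hQ1 : 0 < |Q| + 1 := by positivity
  set K : ℝ := min 1 (D / (|Q| + 1)) with hK
  have hK0 : 0 < K := lt_min one_pos (div_pos hD0 hQ1)
  have hK1 : K ≤ 1 := min_le_left _ _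
  have hK2 : K * (|Q| + 1) ≤ D := by
    have : K ≤ D / (|Q| + 1) := min_le_right _ _
    rwa [le_div_iff₀ hQ1] at this
  have hX : 0 < D * K - K ^ 2 * Q / 2 := by
    have h1 : K ^ 2 * Q ≤ K * D := by
      have h2 : K * Q ≤ D := by
        have h3 := le_abs_self Q
        nlinarith
      calc K ^ 2 * Q = K * (K * Q) := by ring
        _ ≤ K * D := mul_le_mul_of_nonneg_left h2 hK0.le
    have h4 : 0 < K * D := mul_pos hK0 hD0
    linarith
  set X : ℝ := D * K - K ^ 2 * Q / 2 with hXdef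
  obtain ⟨C, d0, hd0, hC⟩ := hQ p f hp hHI K (|m| + |f t|) eta hK0.le heta0
  set δ : ℝ := min (min d0 eta) (min (t' - t) (X / (2 * (|C| + 1)))) with hδ
  have hC1 : 0 < 2 * (|C| + 1) := by positivity
  have hδ0 : 0 < δ := lt_min (lt_min hd0 heta0) (lt_min (by linarith) (div_pos hX hC1))
  have hδ1 : δ ≤ d0 := (min_le_left _ _).trans (min_le_left _ _)
  have hδ2 : δ ≤ eta := (min_le_left _ _).trans (min_le_right _ _)
  have hδ3 : δ ≤ t' - t := (min_le_right _ _).trans (min_le_left _ _)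
  have hδ4 : δ * (2 * (|C| + 1)) ≤ X := by
    have : δ ≤ X / (2 * (|C| + 1)) := (min_le_right _ _).trans (min_le_right _ _)
    rwa [le_div_iff₀ hC1] at this
  have hu1 : t + δ ≤ 1 - eta := by rw [heta] at hδ2 ⊢; linarith
  have key := hC t m ⟨htI, hsg⟩ (by rw [heta]; linarith) (by linarith [abs_nonneg (f t)])
    (by linarith [abs_nonneg m]) (t + δ) ⟨by linarith [htI.1], by linarith⟩ hu1
    (by rw [add_sub_cancel_left, abs_of_pos hδ0]; exact hδ1)
    (by nlinarith [htI.1])
  rw [add_sub_cancel_left, abs_of_pos hδ0] at key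
  have h5 := haff (t + δ) (by linarith) (by linarith)
  rw [add_sub_cancel_left] at h5
  have key' : X * δ ^ 2 - C * δ ^ 3 ≤ f (t + δ) - f t - m * δ := key
  have h6 : X * δ ^ 2 ≤ C * δ ^ 3 := by linarith
  have h7 : X ≤ C * δ := by
    have h8 : 0 < δ ^ 2 := by positivity
    have h9 : X * δ ^ 2 ≤ (C * δ) * δ ^ 2 := by linarith [show C * δ ^ 3 = (C * δ) * δ ^ 2 by ring]
    exact le_of_mul_le_mul_right h9 h8
  have h10 : C * δ ≤ |C| * δ := mul_le_mul_of_nonneg_right (le_abs_self C) hδ0.le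
  nlinarith [abs_nonneg C]

end Pool.Agent.W135.HM.Uni
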